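import Pool.Agent.Q51.SZ.Stm
import Pool.Agent.Q38.SX.CLU
import Pool.Agent.Q239.EL.UN

/-!
# Project SZ (helper51): job DEL, elements with given valuations modulo `q`
-/

set_option autoImplicit false

namespace Pool.Agent.Q24.SZ

open Polynomial NumberField IsDedekindDomain Finset
open Pool.Agent.Q51.SE (Parq)
open Pool.Agent.Q51.SZ

theorem del : S_DEL := by
  classical
  intro L _ _ q hq
  obtain ⟨B, C, hB, -, hcl⟩ := Pool.Agent.Q38.SX.clu Pool.Agent.Q239.EL.un L
  refine ⟨B, hB, fun M hM => ?_⟩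
  have hqz : (q : ℤ) ≠ 0 := by exact_mod_cast hq
  set S : ℕ → Finset (HeightOneSpectrum (𝓞 L)) := fun k =>
    hM.toFinset.filter (fun v => (B : 𝓞 L) ∉ v.asIdeal ∧ 1 ≤ k ∧ M v % q = k) with hS
  have hmem : ∀ (k : ℕ) (v : HeightOneSpectrum (𝓞 L)), v ∈ S k ↔
      M v ≠ 0 ∧ (B : 𝓞 L) ∉ v.asIdeal ∧ 1 ≤ k ∧ M v % q = k := by
    intro k v
    simp only [hS, Finset.mem_filter, Set.Finite.mem_toFinset, Set.mem_ofPred_eq]
  have hα : ∀ k : ℕ, ∃ α : 𝓞 L, α ≠ 0 ∧ ∀ v : HeightOneSpectrum (𝓞 L), (B : 𝓞 L) ∉ v.asIdeal →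
      (v ∈ S k → v.valuation L (α : L) = WithZero.exp (-1 : ℤ)) ∧
      (v ∉ S k → v.valuation L (α : L) = 1) := by
    intro k
    obtain ⟨α, h0, h1, -⟩ := hcl (S k) (fun v hv => ((hmem k v).1 hv).2.1)
    exact ⟨α, h0, h1⟩
  choose α hα0 hαv using hα
  refine ⟨∏ k ∈ Finset.range q, ((α k : 𝓞 L) : L) ^ k, ?_, ?_⟩
  · rw [Finset.prod_ne_zero_iff]
    intro k _
    refine pow_ne_zero _ ?_
    intro h
    exact hα0 k (by exact_mod_cast h)
  intro v hv
  have hr0 : 0 ≤ M v % q := Int.emod_nonneg _ hqz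
  have hr1 : M v % q < q := Int.emod_lt_of_pos _ (by omega)
  obtain ⟨r, hr⟩ := Int.eq_ofNat_of_zero_le hr0
  have hrq : r < q := by omega
  have hval : v.valuation L (∏ k ∈ Finset.range q, ((α k : 𝓞 L) : L) ^ k)
      = WithZero.exp (-(r : ℤ)) := by
    rw [map_prod, Finset.prod_eq_single r]
    · rw [map_pow]
      rcases Nat.eq_zero_or_pos r with h0 | hpos
      · subst h0
        simp
      · have hin : v ∈ S r := by
          rw [hmem]
          refine ⟨?_, hv, hpos, hr⟩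
          intro h
          rw [h, Int.zero_emod] at hr
          omega
        rw [(hαv r v hv).1 hin, ← WithZero.exp_nsmul]
        congr 1
        simp
    · intro k _ hk
      rw [map_pow]
      have hout : v ∉ S k := by
        rw [hmem]
        rintro ⟨-, -, -, h⟩
        exact hk (by omega)
      rw [(hαv k v hv).2 hout, one_pow]
    · intro h
      exact absurd (Finset.mem_range.2 hrq) h
  refine ⟨-(M v / q), ?_⟩
  rw [hval]
  congr 1
  have := Int.emod_add_mul_ediv (M v) q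
  rw [hr] at this
  linarith

end Pool.Agent.Q24.SZ
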